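import Pool.Graph.R_pool_sql_team_seeded_ab47071d.TH628.PR.Lower

set_option autoImplicit false

/-!
# The phase rule on combed outmaps: at most `n (n + 1) / 2` steps
-/

namespace Pool.Agent.H693.Comb

open Finset Pool.Agent.H454R3 Pool.Agent.TH628.PR

variable {n : ℕ}

/-- what a rule is told at a vertex: which row of each pair is tight, and which pairs can be left with
an improvement -/
abbrev View (n : ℕ) : Type := (Fin n → Bool) × Finset (Fin n)

/-- the smallest element -/
def pick (hn : 0 < n) (S : Finset (Fin n)) : Fin n := if h : S.Nonempty then S.min' h else ⟨0, hn⟩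

lemma pick_mem (hn : 0 < n) {S : Finset (Fin n)} (h : S.Nonempty) : pick hn S ∈ S := by
  unfold pick
  rw [dif_pos h]
  exact S.min'_mem h

/-- the directions which count as used at the view `v`, when the directions in `F` were used in the
current phase: a new phase begins when all improving directions have been used -/
def base (v : View n) (F : Finset (Fin n)) : Finset (Fin n) := if (v.2 \ F).Nonempty then F else ∅

/-- the directions used in the current phase, with the one chosen at the last view -/
def used (hn : 0 < n) : List (View n) → Finset (Fin n)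
  | [] => ∅
  | v :: l => insert (pick hn (v.2 \ base v (used hn l))) (base v (used hn l))

/-- **the phase rule**: it leaves an improving direction which has not been used in the current phase;
if there is none, then a new phase begins. -/
def phaseRule (hn : 0 < n) : List (View n) → Fin n
  | [] => ⟨0, hn⟩
  | v :: l => pick hn (v.2 \ base v (used hn l))

lemma used_cons (hn : 0 < n) (v : View n) (l : List (View n)) :
    used hn (v :: l) = insert (pick hn (v.2 \ base v (used hn l))) (base v (used hn l)) := rfl

lemma phaseRule_cons (hn : 0 < n) (v : View n) (l : List (View n)) :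
    phaseRule hn (v :: l) = pick hn (v.2 \ base v (used hn l)) := rfl

lemma sdiff_base_nonempty {v : View n} (F : Finset (Fin n)) (h : v.2.Nonempty) :
    (v.2 \ base v F).Nonempty := by
  unfold base
  split_ifs with h1
  · exact h1
  · rwa [sdiff_empty]

lemma phaseRule_mem (hn : 0 < n) (v : View n) (l : List (View n)) (h : v.2.Nonempty) :
    phaseRule hn (v :: l) ∈ v.2 :=
  (mem_sdiff.1 (pick_mem hn (sdiff_base_nonempty (used hn l) h))).1

/-- every face has a direction whose status depends only on its own coordinate -/
def Cmb (imp : (Fin n → Bool) → Finset (Fin n)) : Prop :=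
  ∀ (U : Finset (Fin n)) (x : Fin n → Bool), U.Nonempty → ∃ i ∈ U, ∀ y z : Fin n → Bool,
    (∀ j, j ∉ U → y j = x j) → (∀ j, j ∉ U → z j = x j) → y i = z i → (i ∈ imp y ↔ i ∈ imp z)

section
variable (hn : 0 < n) {imp : (Fin n → Bool) → Finset (Fin n)} (hc : Cmb imp)
  (hf : ∀ y i, i ∈ imp y → i ∉ imp (H454R3.flip y i))
include hc hf

lemma phase_aux (u : ℕ) : ∀ (k : ℕ) (U : Finset (Fin n)) (i : Fin n) (x : Fin n → Bool)
    (l : List (View n)), U.card = u + 1 → i ∈ U →
    (∀ y z : Fin n → Bool, (∀ j, j ∉ U → y j = x j) → (∀ j, j ∉ U → z j = x j) → y i = z i →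
      (i ∈ imp y ↔ i ∈ imp z)) →
    (∀ y : Fin n → Bool, (∀ j, j ∉ U → y j = x j) → imp y ⊆ U) →
    (U \ used hn l).card = k → (i ∈ used hn l → i ∉ imp x) →
    ∃ N, 2 * N ≤ 2 * k + u * (u + 1) ∧ imp ((ms (phaseRule hn) imp)^[N] (l, x)).2 = ∅ := by
  induction u with
  | zero =>
    intro k U i x l hU hi hci hUf hk hused
    obtain ⟨a, ha⟩ := card_eq_one.1 hU
    have hia : i = a := by rw [ha] at hi; exact mem_singleton.1 hi
    subst hia
    by_cases h0 : imp x = ∅
    · exact ⟨0, by omega, h0⟩
    have h1 : imp x ⊆ {i} := ha ▸ hUf x (fun _ _ => rfl)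
    have h2 : i ∈ imp x := by
      obtain ⟨j, hj⟩ := nonempty_iff_ne_empty.2 h0
      have := mem_singleton.1 (h1 hj)
      rwa [← this]
    have h3 : i ∉ used hn l := fun h => hused h h2
    have h4 : 1 ≤ k := by
      rw [← hk]
      exact card_pos.2 ⟨i, mem_sdiff.2 ⟨hi, h3⟩⟩
    refine ⟨1, by omega, ?_⟩
    have h5 : phaseRule hn ((x, imp x) :: l) = i :=
      mem_singleton.1 (h1 (phaseRule_mem hn (x, imp x) l ⟨i, h2⟩))
    have h6 : ((ms (phaseRule hn) imp)^[1] (l, x)).2 = H454R3.flip x i := by
      show H454R3.flip x (phaseRule hn ((x, imp x) :: l)) = _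
      rw [h5]
    rw [h6]
    have h7 : imp (H454R3.flip x i) ⊆ {i} := ha ▸ hUf _ (fun j hj => by
      have : j ≠ i := fun h => hj (h ▸ hi)
      rw [flip_off _ this])
    rw [eq_empty_iff_forall_notMem]
    intro j hj
    have := mem_singleton.1 (h7 hj)
    subst this
    exact hf x j h2 hj
  | succ u ihu =>
    intro k
    induction k using Nat.strong_induction_on with
    | _ k ihk =>
    intro U i x l hU hi hci hUf hk hused
    by_cases h0 : imp x = ∅
    · exact ⟨0, by omega, h0⟩
    have h0' : (imp x).Nonempty := nonempty_iff_ne_empty.2 h0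
    have hS : imp x ⊆ U := hUf x (fun _ _ => rfl)
    by_cases h1 : (imp x \ used hn l).Nonempty
    · -- the phase goes on
      have hb : base (x, imp x) (used hn l) = used hn l := if_pos h1
      have hj := pick_mem hn h1
      set j := pick hn (imp x \ used hn l) with hjdef
      have hr : phaseRule hn ((x, imp x) :: l) = j := by
        rw [phaseRule_cons, hb]
      have hu : used hn ((x, imp x) :: l) = insert j (used hn l) := by
        rw [used_cons, hb]
      have hjS := (mem_sdiff.1 hj).1
      have hjF := (mem_sdiff.1 hj).2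
      have hjU := hS hjS
      have hout : ∀ y : Fin n → Bool, (∀ a, a ∉ U → y a = H454R3.flip x j a) ↔
          (∀ a, a ∉ U → y a = x a) := fun y => forall₂_congr fun a ha => by
        have : a ≠ j := fun h => ha (h ▸ hjU)
        rw [flip_off _ this]
      have hk' : (U \ used hn ((x, imp x) :: l)).card + 1 = k := by
        rw [hu, ← hk, sdiff_insert, card_erase_add_one (mem_sdiff.2 ⟨hjU, hjF⟩)]
      obtain ⟨N, hN, hN2⟩ := ihk _ (by omega) U i (H454R3.flip x j) ((x, imp x) :: l) hU hi
        (fun y z hy hz => hci y z ((hout y).1 hy) ((hout z).1 hz))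
        (fun y hy => hUf y ((hout y).1 hy)) rfl (by
          rw [hu, mem_insert]
          rintro (h | h)
          · rw [h]
            exact hf x j hjS
          · have hij : i ≠ j := fun e => hjF (e ▸ h)
            rw [← hci x _ (fun _ _ => rfl) ((hout _).1 fun _ _ => rfl) (by rw [flip_off _ hij])]
            exact hused h)
      refine ⟨N + 1, by omega, ?_⟩
      rw [Function.iterate_succ_apply]
      have : ms (phaseRule hn) imp (l, x) = ((x, imp x) :: l, H454R3.flip x j) := by
        unfold ms
        rw [hr]
      rw [this]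
      exact hN2
    · -- a new phase
      have hb : base (x, imp x) (used hn l) = ∅ := if_neg h1
      have hiS : i ∉ imp x := by
        intro h
        by_cases h2 : i ∈ used hn l
        · exact hused h2 h
        · exact h1 ⟨i, mem_sdiff.2 ⟨h, h2⟩⟩
      have hj := pick_mem hn h0'
      set j := pick hn (imp x) with hjdef
      have hr : phaseRule hn ((x, imp x) :: l) = j := by
        rw [phaseRule_cons, hb, sdiff_empty]
      have hu : used hn ((x, imp x) :: l) = {j} := by
        rw [used_cons, hb, sdiff_empty]
        rfl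
      have hij : j ≠ i := fun e => hiS (e ▸ hj)
      have hjU : j ∈ U.erase i := mem_erase.2 ⟨hij, hS hj⟩
      have hcard : (U.erase i).card = u + 1 := by rw [card_erase_of_mem hi, hU]; rfl
      have hout : ∀ y : Fin n → Bool, (∀ a, a ∉ U.erase i → y a = H454R3.flip x j a) ↔
          (∀ a, a ∉ U.erase i → y a = x a) := fun y => forall₂_congr fun a ha => by
        have : a ≠ j := fun h => ha (h ▸ hjU)
        rw [flip_off _ this]
      obtain ⟨i', hi', hci'⟩ := hc (U.erase i) (H454R3.flip x j) ⟨j, hjU⟩
      obtain ⟨N, hN, hN2⟩ := ihu ((U.erase i) \ used hn ((x, imp x) :: l)).card (U.erase i) i'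
        (H454R3.flip x j) ((x, imp x) :: l) hcard hi' hci' (by
          intro y hy
          have hy1 := (hout y).1 hy
          have hy2 : ∀ a, a ∉ U → y a = x a := fun a ha => hy1 a fun h => ha (mem_of_mem_erase h)
          intro a ha
          refine mem_erase.2 ⟨?_, hUf y hy2 ha⟩
          rintro rfl
          exact hiS ((hci y x hy2 (fun _ _ => rfl) (hy1 a (notMem_erase a U))).1 ha)) rfl (by
          rw [hu, mem_singleton]
          rintro rfl
          exact hf x _ hj)
      rw [hu, sdiff_singleton_eq_erase, card_erase_of_mem hjU, hcard] at hN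
      refine ⟨N + 1, ?_, ?_⟩
      · have : (u + 1) * (u + 1 + 1) = u * (u + 1) + 2 * (u + 1) := by ring
        omega
      · rw [Function.iterate_succ_apply]
        have : ms (phaseRule hn) imp (l, x) = ((x, imp x) :: l, H454R3.flip x j) := by
          unfold ms
          rw [hr]
        rw [this]
        exact hN2

theorem phase_upper (x : Fin n → Bool) :
    ∃ N, 2 * N ≤ n * (n + 1) ∧ imp ((ms (phaseRule hn) imp)^[N] ([], x)).2 = ∅ := by
  obtain ⟨m, rfl⟩ : ∃ m, n = m + 1 := ⟨n - 1, by omega⟩
  obtain ⟨i, hi, hci⟩ := hc univ x ⟨⟨0, hn⟩, mem_univ _⟩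
  obtain ⟨N, hN, hN2⟩ := phase_aux hn hc hf m (m + 1) univ i x [] (by simp) hi hci
    (fun _ _ => subset_univ _) (by simp [used]) (by simp [used])
  exact ⟨N, by nlinarith, hN2⟩

end

end Pool.Agent.H693.Comb
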