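import Pool.Graph.R_pool_sql_team_seeded_ab47071d.TH628.PR.LP
import Pool.Agent.H693.Comb.Phase

set_option autoImplicit false

/-!
# Combed linear programs, what a rule is told, and runs
-/

namespace Pool.Agent.H693.Comb

open Finset Pool.Agent.TH628.PR

variable {n : ℕ}

/-- combed linear programs: for every nonempty set `U` of pairs and every vertex `x` there is a pair
`i ∈ U` such that on the face of `x` and `U` (the vertices which have the same tight rows as `x` in the
pairs outside `U`) it depends only on the tight row of the pair `i` whether this row can be left with an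
improvement -/
def CombedLP (A : Fin n × Bool → Fin n → ℝ) (b : Fin n × Bool → ℝ) (c : Fin n → ℝ) : Prop :=
  ∀ U : Finset (Fin n), ∀ x ∈ (poly A b).extremePoints ℝ, U.Nonempty → ∃ i ∈ U,
    ∀ y ∈ (poly A b).extremePoints ℝ, ∀ z ∈ (poly A b).extremePoints ℝ,
      (∀ j, j ∉ U → sg A b y j = sg A b x j) → (∀ j, j ∉ U → sg A b z j = sg A b x j) →
      sg A b y i = sg A b z i → (i ∈ impr A b c y ↔ i ∈ impr A b c z)

/-- what a rule has been told when it is at `x k`, the most recent information first: for each vertex
visited so far the tight rows and the pairs which can be left with an improvement -/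
noncomputable def told (A : Fin n × Bool → Fin n → ℝ) (b : Fin n × Bool → ℝ) (c : Fin n → ℝ)
    (x : ℕ → Fin n → ℝ) : ℕ → List (View n)
  | 0 => [(sg A b (x 0), impr A b c (x 0))]
  | k + 1 => (sg A b (x (k + 1)), impr A b c (x (k + 1))) :: told A b c x k

/-- `x 0, …, x L` is the run of the rule `ρ`: at each of the vertices `x k`, `k < L`, some improvement is
possible and the neighbour chosen by the rule is `x (k + 1)`; and `x L` is optimal -/
def Run (A : Fin n × Bool → Fin n → ℝ) (b : Fin n × Bool → ℝ) (c : Fin n → ℝ)
    (ρ : List (View n) → Fin n) (L : ℕ) (x : ℕ → Fin n → ℝ) : Prop :=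
  (∀ k < L, (impr A b c (x k)).Nonempty ∧
    ∀ y, Nb A b (x k) (ρ (told A b c x k)) y ↔ y = x (k + 1)) ∧
  ∀ y ∈ poly A b, ∑ l, c l * y l ≤ ∑ l, c l * x L l

end Pool.Agent.H693.Comb
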