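import Mathlib

set_option autoImplicit false

/-!
# The coordinates of the vertices of the nested cube

A vertex is given by the set of levels `k` (`t k = true`) at which the upper constraint is tight.
-/

namespace Pool.Agent.H693.Comb

open Finset

/-- the alternating sum of the entries below `k` -/
def alt (X : ℕ → ℝ) (k : ℕ) : ℝ := ∑ j ∈ range k, (-1) ^ (k - j) * X j

/-- the entry below `k` -/
def prv (X : ℕ → ℝ) : ℕ → ℝ
  | 0 => 0
  | k + 1 => X k

lemma alt_zero (X : ℕ → ℝ) : alt X 0 = 0 := by simp [alt]

lemma alt_succ (X : ℕ → ℝ) (k : ℕ) : alt X (k + 1) = -(alt X k + X k) := by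
  unfold alt
  rw [sum_range_succ, neg_add, ← sum_neg_distrib]
  congr 1
  · refine sum_congr rfl fun j hj => ?_
    have : k + 1 - j = (k - j) + 1 := by have := mem_range.1 hj; omega
    rw [this, pow_succ]
    ring
  · have : k + 1 - k = 1 := by omega
    rw [this]
    ring

lemma abs_alt_le (X : ℕ → ℝ) (k : ℕ) : |alt X k| ≤ ∑ j ∈ range k, |X j| := by
  unfold alt
  refine (abs_sum_le_sum_abs _ _).trans (sum_le_sum fun j _ => ?_)
  rw [abs_mul, abs_pow, abs_neg, abs_one, one_pow, one_mul]

lemma alt_congr {X Y : ℕ → ℝ} {k : ℕ} (h : ∀ j < k, X j = Y j) : alt X k = alt Y k :=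
  sum_congr rfl fun j hj => by rw [h j (mem_range.1 hj)]

lemma prv_congr {X Y : ℕ → ℝ} {k : ℕ} (h : ∀ j < k, X j = Y j) : prv X k = prv Y k := by
  cases k with
  | zero => rfl
  | succ k => exact h k (by omega)

/-- previous entry and alternating sum below `k` -/
noncomputable def stt (N : ℝ) (t : ℕ → Bool) : ℕ → ℝ × ℝ
  | 0 => (0, 0)
  | k + 1 => (if t k then 3 + (stt N t k).1 / N else 1 + (stt N t k).2 / N,
      -((stt N t k).2 + if t k then 3 + (stt N t k).1 / N else 1 + (stt N t k).2 / N))

/-- the coordinates of the vertex -/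
noncomputable def pt (N : ℝ) (t : ℕ → Bool) (k : ℕ) : ℝ :=
  if t k then 3 + (stt N t k).1 / N else 1 + (stt N t k).2 / N

lemma stt_fst (N : ℝ) (t : ℕ → Bool) (k : ℕ) : (stt N t k).1 = prv (pt N t) k := by
  cases k with
  | zero => rfl
  | succ k => rfl

lemma stt_snd (N : ℝ) (t : ℕ → Bool) (k : ℕ) : (stt N t k).2 = alt (pt N t) k := by
  induction k with
  | zero => rw [alt_zero]; rfl
  | succ k ih => rw [alt_succ, ← ih]; rfl

lemma pt_eq (N : ℝ) (t : ℕ → Bool) (k : ℕ) :
    pt N t k = if t k then 3 + prv (pt N t) k / N else 1 + alt (pt N t) k / N := by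
  rw [← stt_fst, ← stt_snd]; rfl

/-- the bounds which hold for all points of the cube -/
lemma bounds {n : ℕ} {N : ℝ} (hN : N = 8 * n) {X : ℕ → ℝ} (h1 : ∀ k < n, N * X k ≤ 3 * N + prv X k)
    (h2 : ∀ k < n, N + alt X k ≤ N * X k) : ∀ k < n, 1 / 2 ≤ X k ∧ X k ≤ 4 := by
  intro k
  induction k using Nat.strong_induction_on with
  | _ k ih =>
    intro hk
    have hn : (1 : ℝ) ≤ n := by exact_mod_cast (by omega : 1 ≤ n)
    have hN0 : 0 < N := by rw [hN]; linarith
    have e1 : |alt X k| ≤ 4 * n := by
      refine (abs_alt_le X k).trans ?_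
      calc ∑ j ∈ range k, |X j| ≤ ∑ _j ∈ range k, (4 : ℝ) := sum_le_sum fun j hj => by
            have := ih j (mem_range.1 hj) (by have := mem_range.1 hj; omega)
            rw [abs_le]; constructor <;> linarith
        _ = 4 * k := by rw [sum_const, card_range, nsmul_eq_mul, mul_comm]
        _ ≤ 4 * n := by
            have : (k : ℝ) ≤ n := by exact_mod_cast hk.le
            linarith
    have e2 : prv X k ≤ 4 := by
      cases k with
      | zero => show (0 : ℝ) ≤ 4; norm_num
      | succ k => exact (ih k (by omega) (by omega)).2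
    have e3 := h1 k hk
    have e4 := h2 k hk
    have e5 := (abs_le.1 e1).1
    constructor
    · by_contra hcon
      push Not at hcon
      nlinarith
    · by_contra hcon
      push Not at hcon
      nlinarith

section
variable {n : ℕ} {N : ℝ} (hN : N = 8 * n) (t : ℕ → Bool)
include hN

lemma pt_bounds : ∀ k < n, 1 / 2 ≤ pt N t k ∧ pt N t k ≤ 4 := by
  intro k
  induction k using Nat.strong_induction_on with
  | _ k ih =>
    intro hk
    have hn : (1 : ℝ) ≤ n := by exact_mod_cast (by omega : 1 ≤ n)
    have hN0 : 0 < N := by rw [hN]; linarith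
    have e1 : |alt (pt N t) k| ≤ 4 * n := by
      refine (abs_alt_le _ k).trans ?_
      calc ∑ j ∈ range k, |pt N t j| ≤ ∑ _j ∈ range k, (4 : ℝ) := sum_le_sum fun j hj => by
            have := ih j (mem_range.1 hj) (by have := mem_range.1 hj; omega)
            rw [abs_le]; constructor <;> linarith
        _ = 4 * k := by rw [sum_const, card_range, nsmul_eq_mul, mul_comm]
        _ ≤ 4 * n := by
            have : (k : ℝ) ≤ n := by exact_mod_cast hk.le
            linarith
    have e2 : 0 ≤ prv (pt N t) k ∧ prv (pt N t) k ≤ 4 := by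
      cases k with
      | zero => exact ⟨le_refl (0 : ℝ), by show (0 : ℝ) ≤ 4; norm_num⟩
      | succ k =>
        have := ih k (by omega) (by omega)
        exact ⟨by show (0 : ℝ) ≤ pt N t k; linarith, this.2⟩
    have e5 := abs_le.1 e1
    have e6 : |alt (pt N t) k / N| ≤ 1 / 2 := by
      rw [abs_div, abs_of_pos hN0, div_le_iff₀ hN0]
      linarith
    have e7 : prv (pt N t) k / N ≤ 1 := by
      rw [div_le_iff₀ hN0]
      linarith [e2.2]
    have e8 : 0 ≤ prv (pt N t) k / N := div_nonneg e2.1 hN0.le
    have e9 := abs_le.1 e6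
    rw [pt_eq]
    split_ifs
    · constructor <;> linarith
    · constructor <;> linarith

lemma abs_alt_pt {k : ℕ} (hk : k < n) : |alt (pt N t) k| ≤ 4 * n := by
  refine (abs_alt_le _ k).trans ?_
  calc ∑ j ∈ range k, |pt N t j| ≤ ∑ _j ∈ range k, (4 : ℝ) := sum_le_sum fun j hj => by
        have := pt_bounds hN t j (by have := mem_range.1 hj; omega)
        rw [abs_le]; constructor <;> linarith
    _ = 4 * k := by rw [sum_const, card_range, nsmul_eq_mul, mul_comm]
    _ ≤ 4 * n := by
        have : (k : ℝ) ≤ n := by exact_mod_cast hk.le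
        linarith

lemma prv_pt {k : ℕ} (hk : k < n) : 0 ≤ prv (pt N t) k ∧ prv (pt N t) k ≤ 4 := by
  cases k with
  | zero => exact ⟨le_refl (0 : ℝ), by show (0 : ℝ) ≤ 4; norm_num⟩
  | succ k =>
    have := pt_bounds hN t k (by omega)
    exact ⟨by show (0 : ℝ) ≤ pt N t k; linarith, this.2⟩

/-- `pt` satisfies all constraints, and exactly the chosen one is tight -/
lemma pt_spec {k : ℕ} (hk : k < n) :
    (N * pt N t k ≤ 3 * N + prv (pt N t) k ∧ N + alt (pt N t) k ≤ N * pt N t k) ∧
    (N * pt N t k = 3 * N + prv (pt N t) k ↔ t k = true) ∧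
    (N + alt (pt N t) k = N * pt N t k ↔ t k = false) := by
  have hn : (1 : ℝ) ≤ n := by exact_mod_cast (by omega : 1 ≤ n)
  have hN0 : 0 < N := by rw [hN]; linarith
  have e1 := abs_le.1 (abs_alt_pt hN t hk)
  have e2 := prv_pt hN t hk
  cases htk : t k with
  | false =>
    have e3 : N * pt N t k = N + alt (pt N t) k := by
      rw [pt_eq, htk, if_neg (by simp)]
      field_simp
    refine ⟨⟨by linarith, by linarith⟩, ⟨fun h => ?_, fun h => by simp at h⟩,
      ⟨fun _ => rfl, fun _ => e3.symm⟩⟩
    linarith
  | true =>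
    have e3 : N * pt N t k = 3 * N + prv (pt N t) k := by
      rw [pt_eq, htk, if_pos rfl]
      field_simp
    refine ⟨⟨by linarith, by linarith⟩, ⟨fun _ => rfl, fun _ => e3⟩,
      ⟨fun h => ?_, fun h => by simp at h⟩⟩
    linarith

/-- `Pos t k j`: the `k`-th coordinate increases when level `j` is changed from lower to upper -/
def Pos (t : ℕ → Bool) (j : ℕ) : ℕ → Prop
  | 0 => True
  | d + 1 => if t (j + d + 1) = true then Pos t j d else Even (d + 1)

omit hN in
lemma sum_abs_le {D : ℕ → ℝ} {j k : ℕ} (δ : ℝ) (n : ℕ) (hk : k < n) (h0 : ∀ i < j, D i = 0)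
    (h1 : ∀ i, j < i → i < k → |D i| ≤ δ / (4 * n)) (hδ : 0 ≤ δ) :
    ∑ i ∈ (range k).erase j, |D i| ≤ δ / 4 := by
  have hn : (1 : ℝ) ≤ n := by exact_mod_cast (by omega : 1 ≤ n)
  have h2 : ∀ i ∈ (range k).erase j, |D i| ≤ δ / (4 * n) := by
    intro i hi
    obtain ⟨h3, h4⟩ := mem_erase.1 hi
    rcases lt_or_gt_of_ne h3 with h | h
    · rw [h0 i h, abs_zero]
      positivity
    · exact h1 i h (mem_range.1 h4)
  calc ∑ i ∈ (range k).erase j, |D i| ≤ ∑ _i ∈ (range k).erase j, δ / (4 * n) := sum_le_sum h2
    _ = ((range k).erase j).card * (δ / (4 * n)) := by rw [sum_const, nsmul_eq_mul]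
    _ ≤ n * (δ / (4 * n)) := by
        refine mul_le_mul_of_nonneg_right ?_ (by positivity)
        have : ((range k).erase j).card ≤ n := (card_erase_le).trans (by rw [card_range]; omega)
        exact_mod_cast this
    _ = δ / 4 := by field_simp

variable {t} in
/-- the differences of the coordinates of two neighbours -/
lemma diff {t' : ℕ → Bool} {j : ℕ} (hj : j < n) (htj : t j = false) (htj' : t' j = true)
    (heq : ∀ i, i ≠ j → t' i = t i) :
    (∀ i < j, pt N t' i = pt N t i) ∧ 0 < pt N t' j - pt N t j ∧
    ∀ d, j + d < n → |pt N t' (j + d) - pt N t (j + d)| ≤ (pt N t' j - pt N t j) /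
        (if d = 0 then (1 : ℝ) else 4 * n) ∧
      (Pos t j d → 0 < pt N t' (j + d) - pt N t (j + d)) ∧
      (¬ Pos t j d → pt N t' (j + d) - pt N t (j + d) < 0) := by
  have hn : (1 : ℝ) ≤ n := by exact_mod_cast (by omega : 1 ≤ n)
  have hN0 : 0 < N := by rw [hN]; linarith
  have h0 : ∀ i < j, pt N t' i = pt N t i := by
    intro i
    induction i using Nat.strong_induction_on with
    | _ i ih =>
      intro hi
      rw [pt_eq, pt_eq N t, heq i (by omega), alt_congr (fun a ha => ih a ha (by omega)),
        prv_congr (fun a ha => ih a ha (by omega))]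
  have hδ : 0 < pt N t' j - pt N t j := by
    have e1 := abs_le.1 (abs_alt_pt hN t hj)
    have e2 := prv_pt hN t' hj
    have e3 := ((pt_spec hN t hj).2.2).2 htj
    have e4 := ((pt_spec hN t' hj).2.1).2 htj'
    by_contra hcon
    push Not at hcon
    nlinarith
  refine ⟨h0, hδ, ?_⟩
  set D : ℕ → ℝ := fun i => pt N t' i - pt N t i with hD
  have hD0 : ∀ i < j, D i = 0 := fun i hi => sub_eq_zero.2 (h0 i hi)
  change 0 < D j at hδ
  intro d
  induction d using Nat.strong_induction_on with
  | _ d ih =>
    intro hd
    change |D (j + d)| ≤ D j / (if d = 0 then (1 : ℝ) else 4 * n) ∧ (Pos t j d → 0 < D (j + d)) ∧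
      (¬ Pos t j d → D (j + d) < 0)
    cases d with
    | zero =>
      refine ⟨?_, fun _ => hδ, fun h => absurd trivial h⟩
      rw [if_pos rfl, div_one, Nat.add_zero, abs_of_pos hδ]
    | succ d =>
      rw [if_neg (by omega)]
      have e0 : t' (j + d + 1) = t (j + d + 1) := heq _ (by omega)
      have hval : N * D (j + d + 1) = if t (j + d + 1) then D (j + d) else alt D (j + d + 1) := by
        have e1 := pt_eq N t' (j + d + 1)
        have e2 := pt_eq N t (j + d + 1)
        rw [e0] at e1
        rw [hD]
        simp only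
        rw [e1, e2]
        split_ifs with h
        · change N * (3 + pt N t' (j + d) / N - (3 + pt N t (j + d) / N)) = _
          field_simp
          ring
        · have e3 : alt (fun i => pt N t' i - pt N t i) (j + d + 1) =
              alt (pt N t') (j + d + 1) - alt (pt N t) (j + d + 1) := by
            unfold alt
            rw [← sum_sub_distrib]
            exact sum_congr rfl fun i _ => by ring
          rw [e3]
          field_simp
          ring
      have ihd := ih d (by omega) (by omega)
      change |D (j + d)| ≤ D j / (if d = 0 then (1 : ℝ) else 4 * n) ∧ (Pos t j d → 0 < D (j + d)) ∧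
        (¬ Pos t j d → D (j + d) < 0) at ihd
      have hprev : |D (j + d)| ≤ D j := by
        refine ihd.1.trans ?_
        split_ifs
        · rw [div_one]
        · exact div_le_self hδ.le (by linarith)
      -- the alternating sum
      have hsum : ∑ i ∈ (range (j + d + 1)).erase j, |D i| ≤ D j / 4 := by
        refine sum_abs_le (D j) n (by omega) hD0 (fun i hi hi2 => ?_) hδ.le
        obtain ⟨e, rfl⟩ : ∃ e, i = j + e := ⟨i - j, by omega⟩
        have := (ih e (by omega) (by omega)).1
        rw [if_neg (by omega)] at this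
        exact this
      have halt : |alt D (j + d + 1) - (-1) ^ (d + 1) * D j| ≤ D j / 4 := by
        unfold alt
        rw [← add_sum_erase _ _ (mem_range.2 (by omega : j < j + d + 1))]
        have : j + d + 1 - j = d + 1 := by omega
        rw [this, add_sub_cancel_left]
        refine (abs_sum_le_sum_abs _ _).trans (le_trans (sum_le_sum fun i _ => ?_) hsum)
        rw [abs_mul, abs_pow, abs_neg, abs_one, one_pow, one_mul]
      have halt' := abs_le.1 halt
      have hpm : (Even (d + 1) ∧ ((-1 : ℝ)) ^ (d + 1) = 1) ∨ (¬ Even (d + 1) ∧ ((-1 : ℝ)) ^ (d + 1) = -1) := by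
        rcases Nat.even_or_odd (d + 1) with h | h
        · exact Or.inl ⟨h, h.neg_one_pow⟩
        · exact Or.inr ⟨Nat.not_even_iff_odd.2 h, h.neg_one_pow⟩
      change |D (j + d + 1)| ≤ D j / (4 * n) ∧
        ((if t (j + d + 1) = true then Pos t j d else Even (d + 1)) → 0 < D (j + d + 1)) ∧
        (¬ (if t (j + d + 1) = true then Pos t j d else Even (d + 1)) → D (j + d + 1) < 0)
      cases hb : t (j + d + 1) with
      | true =>
        rw [hb, if_pos rfl] at hval
        simp only [if_true]
        refine ⟨?_, fun h => ?_, fun h => ?_⟩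
        · rw [le_div_iff₀ (by linarith)]
          have : |D (j + d)| = N * |D (j + d + 1)| := by
            rw [← hval, abs_mul, abs_of_pos hN0]
          rw [this, hN] at hprev
          nlinarith [abs_nonneg (D (j + d + 1))]
        · have := ihd.2.1 h
          rw [← hval] at this
          exact (mul_pos_iff_of_pos_left hN0).1 this
        · have := ihd.2.2 h
          rw [← hval] at this
          by_contra hcon
          push Not at hcon
          nlinarith
      | false =>
        rw [hb] at hval
        simp only [Bool.false_eq_true, if_false] at hval ⊢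
        rw [← hval] at halt'
        refine ⟨?_, fun h => ?_, fun h => ?_⟩
        · rw [le_div_iff₀ (by linarith)]
          have : N * |D (j + d + 1)| ≤ 2 * D j := by
            have e5 : N * |D (j + d + 1)| = |N * D (j + d + 1)| := by
              rw [abs_mul, abs_of_pos hN0]
            rw [e5, abs_le]
            rcases hpm with ⟨_, h2⟩ | ⟨_, h2⟩ <;> rw [h2] at halt' <;> constructor <;> linarith
          rw [hN] at this
          nlinarith [abs_nonneg (D (j + d + 1))]
        · rcases hpm with ⟨_, h2⟩ | ⟨h1, h2⟩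
          · rw [h2] at halt'
            have : 0 < N * D (j + d + 1) := by linarith
            exact (mul_pos_iff_of_pos_left hN0).1 this
          · exact absurd h h1
        · rcases hpm with ⟨h1, h2⟩ | ⟨_, h2⟩
          · exact absurd h1 h
          · rw [h2] at halt'
            by_contra hcon
            push Not at hcon
            nlinarith

end

end Pool.Agent.H693.Comb
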