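import Pool.Agent.H693.Comb.Order
import Pool.Agent.H693.Comb.Point
import Pool.Agent.H693.Comb.Defs
import Pool.Agent.H693.Dep.Geo

set_option autoImplicit false

/-!
# The nested cubes as linear programs
-/

namespace Pool.Agent.H693.Comb

open Finset Pool.Agent.H454R3 Pool.Agent.TH628.PR

variable {n : ℕ}

/-! ### Runs -/

section
variable {A : Fin n × Bool → Fin n → ℝ} {b : Fin n × Bool → ℝ}

lemma impr_iff (hc : IsCube A b) (c : Fin n → ℝ) {V : (Fin n → Bool) → Fin n → ℝ}
    (hV : ∀ s, VertexAt A b s (V s)) (s : Fin n → Bool) (i : Fin n) :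
    i ∈ impr A b c (V s) ↔ ∑ l, c l * V s l < ∑ l, c l * V (H454R3.flip s i) l := by
  classical
  unfold impr
  rw [mem_filter]
  constructor
  · rintro ⟨_, y, h1, h2⟩
    rw [nb_iff hc (hV s)] at h1
    rwa [unique_vertex hc (hV _) h1] at h2
  · intro h
    exact ⟨mem_univ _, V (H454R3.flip s i), (nb_iff hc (hV s) i _).2 (hV _), h⟩

lemma flip_flip (s : Fin n → Bool) (i : Fin n) : H454R3.flip (H454R3.flip s i) i = s := by
  funext j
  by_cases h : j = i
  · rw [h, flip_at, flip_at, Bool.not_not]
  · rw [flip_off _ h, flip_off _ h]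

/-- a run on the outmap gives a run on the linear program -/
lemma run_of (hc : IsCube A b) (c : Fin n → ℝ) {V : (Fin n → Bool) → Fin n → ℝ}
    (hV : ∀ s, VertexAt A b s (V s)) {imp : (Fin n → Bool) → Finset (Fin n)}
    (himp : ∀ s, impr A b c (V s) = imp s) (ρ : List (View n) → Fin n)
    (s₀ : Fin n → Bool) (L : ℕ) (hne : ∀ k < L, (imp ((ms ρ imp)^[k] ([], s₀)).2).Nonempty)
    (hend : imp ((ms ρ imp)^[L] ([], s₀)).2 = ∅) :
    Run A b c ρ L fun k => V ((ms ρ imp)^[k] ([], s₀)).2 := by
  have key : ∀ k, told A b c (fun k => V ((ms ρ imp)^[k] ([], s₀)).2) k =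
      ((ms ρ imp)^[k + 1] ([], s₀)).1 := by
    intro k
    induction k with
    | zero =>
      show [(sg A b (V s₀), impr A b c (V s₀))] = [(s₀, imp s₀)]
      rw [(hV s₀).sg, himp]
    | succ k ih =>
      unfold told
      rw [ih, (hV _).sg, himp, Function.iterate_succ_apply' (ms ρ imp) (k + 1)]
      rfl
  refine ⟨fun k hk => ⟨?_, fun y => ?_⟩, optimal hc (hV _) (by rw [himp]; exact hend)⟩
  · rw [himp]
    exact hne k hk
  · rw [key, nb_iff hc (hV _)]
    have : H454R3.flip ((ms ρ imp)^[k] ([], s₀)).2 (ρ ((ms ρ imp)^[k + 1] ([], s₀)).1) =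
        ((ms ρ imp)^[k + 1] ([], s₀)).2 := by
      rw [Function.iterate_succ_apply']
      rfl
    rw [this]
    constructor
    · exact fun h => unique_vertex hc (hV _) h
    · rintro rfl
      exact hV _

theorem upper_part (hn : 0 < n) (hc : IsCube A b) (c : Fin n → ℝ) (hcb : CombedLP A b c)
    (x₀ : Fin n → ℝ) (hx₀ : x₀ ∈ (poly A b).extremePoints ℝ) :
    ∃ (L : ℕ) (x : ℕ → Fin n → ℝ), x 0 = x₀ ∧ Run A b c (phaseRule hn) L x ∧
      2 * L ≤ n * (n + 1) := by
  classical
  choose V hV using hc.2
  have h1 : Cmb fun s => impr A b c (V s) := by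
    intro U x hU
    obtain ⟨i, hi, h⟩ := hcb U (V x) (hV x).1 hU
    refine ⟨i, hi, fun y z hy hz hyz => ?_⟩
    have := h (V y) (hV y).1 (V z) (hV z).1
    rw [(hV x).sg, (hV y).sg, (hV z).sg] at this
    exact this hy hz hyz
  have h2 : ∀ y i, i ∈ (fun s => impr A b c (V s)) y →
      i ∉ (fun s => impr A b c (V s)) (H454R3.flip y i) := by
    intro y i h h'
    simp only at h h'
    rw [impr_iff hc c hV] at h h'
    rw [flip_flip] at h'
    exact lt_asymm h h'
  obtain ⟨s₀, hs₀⟩ := hc.1 x₀ hx₀
  obtain ⟨N, hN, hN2⟩ := phase_upper hn h1 h2 s₀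
  have hex : ∃ k, (fun s => impr A b c (V s))
      ((ms (phaseRule hn) (fun s => impr A b c (V s)))^[k] ([], s₀)).2 = ∅ := ⟨N, hN2⟩
  refine ⟨Nat.find hex, fun k => V ((ms (phaseRule hn) (fun s => impr A b c (V s)))^[k]
    ([], s₀)).2, ?_, run_of hc c hV (fun _ => rfl) (phaseRule hn) s₀ _ ?_ (Nat.find_spec hex), ?_⟩
  · exact unique_vertex hc hs₀ (hV s₀)
  · intro k hk
    rw [nonempty_iff_ne_empty]
    exact Nat.find_min hex hk
  · exact (Nat.mul_le_mul_left 2 (Nat.find_min' hex hN2)).trans hN

end

/-! ### The linear program -/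

/-- the lower constraint of level `k`: `8 n + ∑ j < k, (-1) ^ (k - j) x j ≤ 8 n x k` -/
def low (k l : Fin n) : ℤ :=
  if l = k then -(8 * n) else if l < k then (-1) ^ (k.val - l.val) else 0

/-- the upper constraint of level `k`: `8 n x k ≤ 24 n + x (k - 1)` -/
def upp (k l : Fin n) : ℤ := if l = k then 8 * n else if l.val + 1 = k.val then -1 else 0

/-- the matrix: the pair `i` belongs to the level `e.symm i`, its lower constraint has the name
`(i, g (e.symm i))` -/
def MM (e : Fin n ≃ Fin n) (g : ℕ → Bool) (r : Fin n × Bool) (l : Fin n) : ℤ :=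
  if r.2 = g (e.symm r.1) then low (e.symm r.1) l else upp (e.symm r.1) l

/-- the right hand side -/
def rr (e : Fin n ≃ Fin n) (g : ℕ → Bool) (r : Fin n × Bool) : ℤ :=
  if r.2 = g (e.symm r.1) then -(8 * n) else 24 * n

/-- the objective function -/
def ob (l : Fin n) : ℤ := if l.val + 1 = n then 1 else 0

/-- extension by zero -/
def ex (x : Fin n → ℝ) (k : ℕ) : ℝ := if h : k < n then x ⟨k, h⟩ else 0

lemma ex_val (x : Fin n → ℝ) (k : Fin n) : ex x k = x k := by
  unfold ex
  rw [dif_pos k.2]

lemma low_eval (x : Fin n → ℝ) (k : Fin n) :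
    ∑ l, (low k l : ℝ) * x l = -(8 * n) * x k + alt (ex x) k := by
  have h1 : ∀ l : Fin n, (low k l : ℝ) * x l = (if l = k then -(8 * n) * x l else 0) +
      (if l.val < k.val then (-1) ^ (k.val - l.val) * ex x l.val else 0) := by
    intro l
    unfold low
    by_cases h : l = k
    · rw [if_pos h, if_pos h, if_neg (by rw [h]; exact lt_irrefl _)]
      push_cast
      ring
    · rw [if_neg h, if_neg h]
      by_cases h2 : l < k
      · rw [if_pos h2, if_pos (Fin.lt_def.1 h2), ex_val]
        push_cast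
        ring
      · rw [if_neg h2, if_neg fun h3 => h2 (Fin.lt_def.2 h3)]
        push_cast
        ring
  simp only [h1]
  rw [sum_add_distrib, sum_ite_eq' univ k, if_pos (mem_univ _),
    Fin.sum_univ_eq_sum_range (fun j => if j < k.val then (-1) ^ (k.val - j) * ex x j else 0) n,
    ← sum_filter]
  congr 1
  unfold alt
  refine sum_congr ?_ fun _ _ => rfl
  ext j
  rw [mem_filter, mem_range, mem_range]
  have := k.2
  constructor
  · exact fun h => h.2
  · exact fun h => ⟨by omega, h⟩

lemma upp_eval (x : Fin n → ℝ) (k : Fin n) :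
    ∑ l, (upp k l : ℝ) * x l = 8 * n * x k - prv (ex x) k := by
  have h1 : ∀ l : Fin n, (upp k l : ℝ) * x l = (if l = k then 8 * n * x l else 0) +
      (if l.val + 1 = k.val then -ex x l.val else 0) := by
    intro l
    unfold upp
    by_cases h : l = k
    · rw [if_pos h, if_pos h, if_neg (by rw [h]; omega)]
      push_cast
      ring
    · rw [if_neg h, if_neg h]
      by_cases h2 : l.val + 1 = k.val
      · rw [if_pos h2, if_pos h2, ex_val]
        push_cast
        ring
      · rw [if_neg h2, if_neg h2]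
        push_cast
        ring
  simp only [h1]
  rw [sum_add_distrib, sum_ite_eq' univ k, if_pos (mem_univ _), sub_eq_add_neg]
  congr 1
  rcases k with ⟨k, hk⟩
  cases k with
  | zero =>
    show _ = -(0 : ℝ)
    rw [neg_zero]
    exact sum_eq_zero fun l _ => if_neg (by simp)
  | succ k =>
    show _ = -ex x k
    rw [sum_eq_single (⟨k, by omega⟩ : Fin n)]
    · simp
    · intro l _ hl
      refine if_neg fun h => hl (Fin.ext ?_)
      simpa using h
    · intro h
      exact absurd (mem_univ _) h

lemma ob_eval (hn : 0 < n) (x : Fin n → ℝ) : ∑ l, ((ob l : ℤ) : ℝ) * x l = ex x (n - 1) := by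
  rw [sum_eq_single (⟨n - 1, by omega⟩ : Fin n)]
  · unfold ob ex
    rw [if_pos (by simp; omega), dif_pos (by omega)]
    simp
  · intro l _ hl
    unfold ob
    rw [if_neg, Int.cast_zero, zero_mul]
    intro h
    exact hl (Fin.ext (by simp; omega))
  · intro h
    exact absurd (mem_univ _) h

section
variable (e : Fin n ≃ Fin n) (g : ℕ → Bool)

/-- real matrix -/
noncomputable abbrev RM : Fin n × Bool → Fin n → ℝ := fun r l => (MM e g r l : ℝ)

/-- real right hand side -/
noncomputable abbrev RB : Fin n × Bool → ℝ := fun r => (rr e g r : ℝ)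

/-- at which levels the upper constraint is tight -/
def lv (s : Fin n → Bool) (k : ℕ) : Bool := if h : k < n then (s (e ⟨k, h⟩) != g k) else false

lemma lv_false {s : Fin n → Bool} {k : Fin n} : lv e g s k = false ↔ s (e k) = g k := by
  unfold lv
  rw [dif_pos k.2]
  simp

lemma lv_true {s : Fin n → Bool} {k : Fin n} : lv e g s k = true ↔ s (e k) ≠ g k := by
  unfold lv
  rw [dif_pos k.2]
  simp

lemma row_eval (x : Fin n → ℝ) (i : Fin n) (f : Bool) : ∑ l, RM e g (i, f) l * x l =
    if f = g (e.symm i) then -(8 * n) * x (e.symm i) + alt (ex x) (e.symm i)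
      else 8 * n * x (e.symm i) - prv (ex x) (e.symm i) := by
  unfold RM MM
  simp only
  split_ifs with h
  · exact low_eval x _
  · exact upp_eval x _

lemma mem_poly_iff (x : Fin n → ℝ) : x ∈ poly (RM e g) (RB e g) ↔ ∀ k : Fin n,
    (8 * n * x k ≤ 3 * (8 * n) + prv (ex x) k ∧ 8 * n + alt (ex x) k ≤ 8 * n * x k) := by
  unfold poly
  rw [Set.mem_ofPred_eq]
  constructor
  · intro h k
    have h1 := h (e k, !g k)
    have h2 := h (e k, g k)
    rw [row_eval] at h1 h2
    unfold RB rr at h1 h2
    simp only [Equiv.symm_apply_apply] at h1 h2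
    rw [if_neg (by cases g k <;> simp), if_neg (by cases g k <;> simp)] at h1
    simp only [if_true] at h2
    push_cast at h1 h2
    constructor <;> linarith
  · rintro h ⟨i, f⟩
    rw [row_eval]
    have h1 := h (e.symm i)
    unfold RB rr
    simp only
    split_ifs
    · push_cast
      linarith [h1.2]
    · push_cast
      linarith [h1.1]

lemma tight_low (x : Fin n → ℝ) (i : Fin n) : Tight (RM e g) (RB e g) x (i, g (e.symm i)) ↔
    8 * n + alt (ex x) (e.symm i) = 8 * n * x (e.symm i) := by
  unfold Tight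
  rw [row_eval, if_pos rfl]
  unfold RB rr
  simp only
  rw [if_pos trivial]
  push_cast
  constructor <;> intro h <;> linarith

lemma tight_upp (x : Fin n → ℝ) (i : Fin n) (f : Bool) (hf : f ≠ g (e.symm i)) :
    Tight (RM e g) (RB e g) x (i, f) ↔
    8 * n * x (e.symm i) = 3 * (8 * n) + prv (ex x) (e.symm i) := by
  unfold Tight
  rw [row_eval, if_neg hf]
  unfold RB rr
  simp only
  rw [if_neg hf]
  push_cast
  constructor <;> intro h <;> linarith

/-- the vertex with the signs `s` -/
noncomputable def VV (s : Fin n → Bool) : Fin n → ℝ := fun k => pt (8 * n) (lv e g s) k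

lemma ex_VV (s : Fin n → Bool) {k : ℕ} (hk : k < n) : ex (VV e g s) k = pt (8 * n) (lv e g s) k := by
  unfold ex VV
  rw [dif_pos hk]

lemma alt_VV (s : Fin n → Bool) (k : Fin n) :
    alt (ex (VV e g s)) k = alt (pt (8 * n) (lv e g s)) k :=
  alt_congr fun _ hj => ex_VV e g s (hj.trans k.2)

lemma prv_VV (s : Fin n → Bool) (k : Fin n) :
    prv (ex (VV e g s)) k = prv (pt (8 * n) (lv e g s)) k :=
  prv_congr fun _ hj => ex_VV e g s (hj.trans k.2)

lemma VV_spec (s : Fin n → Bool) (k : Fin n) :
    (8 * n * VV e g s k ≤ 3 * (8 * n) + prv (pt (8 * n) (lv e g s)) k ∧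
      8 * n + alt (pt (8 * n) (lv e g s)) k ≤ 8 * n * VV e g s k) ∧
    (8 * n * VV e g s k = 3 * (8 * n) + prv (pt (8 * n) (lv e g s)) k ↔ lv e g s k = true) ∧
    (8 * n + alt (pt (8 * n) (lv e g s)) k = 8 * n * VV e g s k ↔ lv e g s k = false) :=
  pt_spec (n := n) rfl (lv e g s) k.2

lemma VV_mem (s : Fin n → Bool) : VV e g s ∈ poly (RM e g) (RB e g) := by
  rw [mem_poly_iff]
  intro k
  rw [alt_VV, prv_VV]
  exact (VV_spec e g s k).1

lemma VV_tight (s : Fin n → Bool) (i : Fin n) (f : Bool) :
    Tight (RM e g) (RB e g) (VV e g s) (i, f) ↔ f = s i := by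
  obtain ⟨_, h1, h2⟩ := VV_spec e g s (e.symm i)
  by_cases hf : f = g (e.symm i)
  · subst hf
    rw [tight_low, alt_VV]
    refine h2.trans ?_
    rw [lv_false, Equiv.apply_symm_apply]
    exact eq_comm
  · rw [tight_upp e g _ i f hf, prv_VV]
    refine h1.trans ?_
    rw [lv_true, Equiv.apply_symm_apply]
    revert hf
    cases f <;> cases s i <;> cases g (e.symm i) <;> simp

/-- linear functional -/
noncomputable def fnl (c : Fin n → ℝ) : (Fin n → ℝ) →ₗ[ℝ] ℝ where
  toFun x := ∑ l, c l * x l
  map_add' x y := by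
    simp only [Pi.add_apply, mul_add, sum_add_distrib]
  map_smul' t x := by
    simp only [Pi.smul_apply, smul_eq_mul, RingHom.id_apply, mul_sum]
    exact sum_congr rfl fun _ _ => by ring

lemma ext_iff_vert {A : Fin n × Bool → Fin n → ℝ} {b : Fin n × Bool → ℝ} {x : Fin n → ℝ} :
    x ∈ (poly A b).extremePoints ℝ ↔ K4H92.LP.Vert (fun r => fnl (A r)) b x := by
  have : poly A b = K4H92.LP.PP (fun r => fnl (A r)) b := rfl
  rw [this]
  exact ⟨K4H92.LP.Vert.of_extreme, K4H92.LP.Vert.extreme⟩

lemma VV_vertexAt (hn : 0 < n) (s : Fin n → Bool) :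
    VertexAt (RM e g) (RB e g) s (VV e g s) := by
  refine ⟨ext_iff_vert.2 ⟨VV_mem e g s, ?_⟩, fun i f => VV_tight e g s i f⟩
  intro y hy
  have hn' : (0 : ℝ) < 8 * n := by
    have : (0 : ℝ) < n := by exact_mod_cast hn
    linarith
  have key : ∀ k < n, ex y k = 0 := by
    intro k
    induction k using Nat.strong_induction_on with
    | _ k ih =>
      intro hk
      have h1 : alt (ex y) k = 0 := sum_eq_zero fun j hj => by
        rw [ih j (mem_range.1 hj) (by have := mem_range.1 hj; omega), mul_zero]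
      have h2 : prv (ex y) k = 0 := by
        cases k with
        | zero => rfl
        | succ k => exact ih k (by omega) (by omega)
      have h3 := hy (e ⟨k, hk⟩, s (e ⟨k, hk⟩)) (K4H92.LP.mem_tight.2
        ((VV_tight e g s (e ⟨k, hk⟩) (s (e ⟨k, hk⟩))).2 rfl))
      change ∑ l, RM e g (e ⟨k, hk⟩, s (e ⟨k, hk⟩)) l * y l = 0 at h3
      rw [row_eval] at h3
      simp only [Equiv.symm_apply_apply] at h3
      have h4 : ex y k = y ⟨k, hk⟩ := ex_val y ⟨k, hk⟩
      rw [h4]
      rw [h1, h2] at h3
      split_ifs at h3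
      · have : 8 * (n : ℝ) * y ⟨k, hk⟩ = 0 := by linarith
        exact (mul_eq_zero.1 this).resolve_left hn'.ne'
      · have : 8 * (n : ℝ) * y ⟨k, hk⟩ = 0 := by linarith
        exact (mul_eq_zero.1 this).resolve_left hn'.ne'
  funext k
  rw [← ex_val y k]
  exact key k k.2

lemma poly_bounds {x : Fin n → ℝ} (hx : x ∈ poly (RM e g) (RB e g)) {k : ℕ} (hk : k < n) :
    1 / 2 ≤ ex x k ∧ ex x k ≤ 4 := by
  rw [mem_poly_iff] at hx
  refine bounds (n := n) (N := 8 * n) rfl (X := ex x) ?_ ?_ k hk
  · intro k hk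
    have := (hx ⟨k, hk⟩).1
    rwa [← ex_val x ⟨k, hk⟩] at this
  · intro k hk
    have := (hx ⟨k, hk⟩).2
    rwa [← ex_val x ⟨k, hk⟩] at this

lemma not_both (hn : 0 < n) {x : Fin n → ℝ} (hx : x ∈ poly (RM e g) (RB e g)) (i : Fin n)
    {f f' : Bool} (h : Tight (RM e g) (RB e g) x (i, f)) (h' : Tight (RM e g) (RB e g) x (i, f')) :
    f = f' := by
  by_contra hne
  wlog hf : f = g (e.symm i) generalizing f f'
  · refine this h' h (fun h => hne h.symm) ?_
    revert hne hf
    cases f <;> cases f' <;> cases g (e.symm i) <;> simp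
  subst hf
  have hf' : f' ≠ g (e.symm i) := fun h => hne h.symm
  rw [tight_low] at h
  rw [tight_upp e g _ i f' hf'] at h'
  have hn' : (1 : ℝ) ≤ n := by exact_mod_cast hn
  have h1 : |alt (ex x) (e.symm i)| ≤ 4 * n := by
    refine (abs_alt_le _ _).trans ?_
    calc ∑ j ∈ range (e.symm i).val, |ex x j| ≤ ∑ _j ∈ range (e.symm i).val, (4 : ℝ) :=
          sum_le_sum fun j hj => by
            have := poly_bounds e g hx (k := j) ((mem_range.1 hj).trans (e.symm i).2)
            rw [abs_le]; constructor <;> linarith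
      _ = 4 * (e.symm i).val := by rw [sum_const, card_range, nsmul_eq_mul, mul_comm]
      _ ≤ 4 * n := by
          have : ((e.symm i).val : ℝ) ≤ n := by exact_mod_cast (e.symm i).2.le
          linarith
  have h2 : 0 ≤ prv (ex x) (e.symm i) := by
    have := (e.symm i).2
    cases hk : (e.symm i).val with
    | zero => exact le_refl (0 : ℝ)
    | succ k =>
      have := poly_bounds e g hx (k := k) (by omega)
      show 0 ≤ ex x k
      linarith
  have h3 := abs_le.1 h1
  linarith

theorem isCube (hn : 0 < n) : IsCube (RM e g) (RB e g) := by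
  classical
  refine ⟨fun x hx => ?_, fun s => ⟨VV e g s, VV_vertexAt e g hn s⟩⟩
  have hv := ext_iff_vert.1 hx
  have h1 := H693.Dep.card_tight hv
  rw [Module.finrank_fintype_fun_eq_card, Fintype.card_fin] at h1
  set T := K4H92.LP.tight (fun r => fnl (RM e g r)) (RB e g) x with hT
  have hmem : ∀ r, r ∈ T ↔ Tight (RM e g) (RB e g) x r := fun r => K4H92.LP.mem_tight
  have h2 : (T.image Prod.fst).card = T.card := by
    refine card_image_of_injOn ?_
    rintro ⟨i, f⟩ h ⟨i', f'⟩ h' (heq : i = i')
    subst heq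
    rw [not_both e g hn hx.1 i ((hmem _).1 h) ((hmem _).1 h')]
  have h3 : T.image Prod.fst = univ := by
    rw [← card_eq_iff_eq_univ, Fintype.card_fin]
    refine le_antisymm ?_ (h2 ▸ h1)
    exact (card_le_univ _).trans (by rw [Fintype.card_fin])
  have h4 : ∀ i, ∃ f, Tight (RM e g) (RB e g) x (i, f) := by
    intro i
    have : i ∈ T.image Prod.fst := h3 ▸ mem_univ i
    obtain ⟨⟨i', f⟩, h5, rfl⟩ := mem_image.1 this
    exact ⟨f, (hmem _).1 h5⟩
  choose s hs using h4
  refine ⟨s, hx, fun i f => ⟨fun h => not_both e g hn hx.1 i h (hs i), fun h => ?_⟩⟩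
  rw [h]
  exact hs i

/-! ### The improving pairs -/

lemma Pos_congr {t t' : ℕ → Bool} {j : ℕ} (d : ℕ) (h : ∀ k, j < k → k ≤ j + d → t k = t' k) :
    Pos t j d ↔ Pos t' j d := by
  induction d with
  | zero => exact Iff.rfl
  | succ d ih =>
    unfold Pos
    rw [h (j + d + 1) (by omega) (by omega), ih fun k h1 h2 => h k h1 (by omega)]

lemma lv_flip_ne (s : Fin n → Bool) (j : Fin n) {k : ℕ} (h : k ≠ j) :
    lv e g (H454R3.flip s (e j)) k = lv e g s k := by
  unfold lv
  split_ifs with hk
  · rw [flip_off _ (fun h' => h (by rw [← e.injective h']))]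
  · rfl

theorem impr_VV (hn : 0 < n) (s : Fin n → Bool) (j : Fin n) :
    e j ∈ impr (RM e g) (RB e g) (fun l => ((ob l : ℤ) : ℝ)) (VV e g s) ↔
      (lv e g s j = false ↔ Pos (lv e g s) j (n - 1 - j)) := by
  have hj := j.2
  rw [impr_iff (isCube e g hn) _ (VV_vertexAt e g hn), ob_eval hn, ob_eval hn,
    ex_VV e g s (by omega), ex_VV e g _ (by omega)]
  have hjd : j.val + (n - 1 - j.val) = n - 1 := by omega
  cases hb : lv e g s j with
  | false =>
    have hb' : lv e g (H454R3.flip s (e j)) j = true := by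
      rw [lv_false] at hb
      rw [lv_true, flip_at, hb]
      cases g j <;> simp
    obtain ⟨_, _, h3⟩ := diff (n := n) rfl (t := lv e g s) (t' := lv e g (H454R3.flip s (e j)))
      (j := j) hj hb hb' fun i hi => lv_flip_ne e g s j hi
    obtain ⟨_, h4, h5⟩ := h3 (n - 1 - j) (by omega)
    rw [hjd] at h4 h5
    constructor
    · intro h
      refine ⟨fun _ => ?_, fun _ => rfl⟩
      by_contra hcon
      have := h5 hcon
      linarith
    · intro h
      have := h4 (h.1 rfl)
      linarith
  | true =>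
    have hb' : lv e g (H454R3.flip s (e j)) j = false := by
      rw [lv_true] at hb
      rw [lv_false, flip_at]
      revert hb
      cases s (e j) <;> cases g j <;> simp
    obtain ⟨_, _, h3⟩ := diff (n := n) rfl (t' := lv e g s) (t := lv e g (H454R3.flip s (e j)))
      (j := j) hj hb' hb fun i hi => (lv_flip_ne e g s j hi).symm
    obtain ⟨_, h4, h5⟩ := h3 (n - 1 - j) (by omega)
    rw [hjd] at h4 h5
    rw [Pos_congr (t' := lv e g s) _ (fun k hk _ => lv_flip_ne e g s j (by omega))] at h4 h5
    constructor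
    · intro h
      refine ⟨fun h' => by simp at h', fun h' => ?_⟩
      have := h4 h'
      linarith
    · intro h
      by_cases hp : Pos (lv e g s) j (n - 1 - j)
      · exact absurd (h.2 hp) (by simp)
      · have := h5 hp
        linarith

theorem combed (hn : 0 < n) : CombedLP (RM e g) (RB e g) (fun l => ((ob l : ℤ) : ℝ)) := by
  classical
  intro U x hx hU
  have hc := isCube e g hn
  obtain ⟨sx, hsx⟩ := hc.1 x hx
  -- the highest level of `U`
  obtain ⟨i, hi, hmax⟩ := exists_max_image U (fun i => e.symm i) hU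
  refine ⟨i, hi, fun y hy z hz hyU hzU hyz => ?_⟩
  obtain ⟨sy, hsy⟩ := hc.1 y hy
  obtain ⟨sz, hsz⟩ := hc.1 z hz
  rw [hsy.sg, hsx.sg] at hyU
  rw [hsz.sg, hsx.sg] at hzU
  rw [hsy.sg, hsz.sg] at hyz
  have ey : y = VV e g sy := unique_vertex hc (VV_vertexAt e g hn sy) hsy
  have ez : z = VV e g sz := unique_vertex hc (VV_vertexAt e g hn sz) hsz
  have ei : i = e (e.symm i) := (e.apply_symm_apply i).symm
  rw [ey, ez, ei, impr_VV e g hn, impr_VV e g hn, lv_false, lv_false, ← ei, hyz]
  refine iff_congr Iff.rfl (Pos_congr _ fun k hk hk2 => ?_)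
  have hkn : k < n := by have := (e.symm i).2; omega
  have hout : e ⟨k, hkn⟩ ∉ U := by
    intro h
    have := hmax _ h
    rw [Equiv.symm_apply_apply] at this
    exact absurd (Fin.le_def.1 this) (by simpa using hk)
  unfold lv
  rw [dif_pos hkn, dif_pos hkn, hyU _ hout, hzU _ hout]

end

lemma mem_out (o : ℕ → Fin n) (g t : ℕ → Bool) (y : Fin n → Bool) (u : ℕ) :
    ∀ x : Fin n → Bool, (∀ a < u, ∀ b < u, o a = o b → a = b) →
    (∀ k < u, x (o k) = (g k != decide (Odd (u - 1 - k)))) →
    (∀ k < u, (t k = false ↔ y (o k) = g k)) →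
    ∀ j < u, (o j ∈ out o u x y ↔ (t j = false ↔ Pos t j (u - 1 - j))) := by
  induction u with
  | zero => intro x _ _ _ j hj; omega
  | succ u ih =>
    intro x hinj hx ht j hj
    have hxu : x (o u) = g u := by
      rw [hx u (by omega)]
      simp
    rw [out_succ]
    by_cases hy : y (o u) = x (o u)
    · rw [if_pos hy, mem_filter]
      have htu : t u = false := (ht u (by omega)).2 (hy.trans hxu)
      have h1 : o j ∈ (range (u + 1)).image o := mem_image_of_mem _ (mem_range.2 hj)
      rw [and_iff_right h1]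
      rcases Nat.lt_succ_iff_lt_or_eq.1 hj with hju | rfl
      · obtain ⟨d, rfl⟩ : ∃ d, u = j + d + 1 := ⟨u - j - 1, by omega⟩
        have h2 : j + d + 1 + 1 - 1 - j = d + 1 := by omega
        rw [h2]
        change _ ↔ (t j = false ↔ if t (j + d + 1) = true then Pos t j d else Even (d + 1))
        rw [htu, if_neg (by simp), ht j hj, hx j hj, h2]
        rcases Nat.even_or_odd (d + 1) with he | ho
        · have : ¬ Odd (d + 1) := Nat.not_odd_iff_even.2 he
          simp [he, this]
        · have : ¬ Even (d + 1) := Nat.not_even_iff_odd.2 ho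
          simp only [ho, this, decide_true]
          cases y (o j) <;> cases g j <;> simp
      · have h2 : j + 1 - 1 - j = 0 := by omega
        rw [h2]
        change _ ↔ (t j = false ↔ True)
        rw [htu]
        simp [hy]
    · rw [if_neg hy]
      have htu : t u = true := by
        have h3 := (ht u (by omega)).not.1
        cases h4 : t u with
        | true => rfl
        | false => exact absurd ((ht u (by omega)).1 h4) (by rw [← hxu]; exact hy)
      rcases Nat.lt_succ_iff_lt_or_eq.1 hj with hju | rfl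
      · have h5 := ih (cmp x) (fun a ha b hb => hinj a (by omega) b (by omega)) (by
          intro k hk
          unfold cmp
          rw [hx k (by omega)]
          have h6 : u + 1 - 1 - k = (u - 1 - k) + 1 := by omega
          rw [h6]
          rcases Nat.even_or_odd (u - 1 - k) with he | ho
          · have h7 : ¬ Odd (u - 1 - k) := Nat.not_odd_iff_even.2 he
            have h8 : Odd (u - 1 - k + 1) := he.add_one
            simp [h7, h8]
          · have h8 : ¬ Odd (u - 1 - k + 1) := Nat.not_odd_iff_even.2 ho.add_one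
            simp [ho, h8]) (fun k hk => ht k (by omega)) j hju
        rw [h5]
        obtain ⟨d, rfl⟩ : ∃ d, u = j + d + 1 := ⟨u - j - 1, by omega⟩
        have h2 : j + d + 1 + 1 - 1 - j = d + 1 := by omega
        have h3 : j + d + 1 - 1 - j = d := by omega
        rw [h2, h3]
        change _ ↔ (t j = false ↔ if t (j + d + 1) = true then Pos t j d else Even (d + 1))
        rw [htu, if_pos rfl]
      · have h2 : j + 1 - 1 - j = 0 := by omega
        rw [h2]
        change _ ↔ (t j = false ↔ True)
        rw [htu]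
        have h3 : o j ∉ out o j (cmp x) y := by
          intro h
          have h4 : ∀ (m : ℕ) (x' : Fin n → Bool), out o m x' y ⊆ (range m).image o := by
            intro m
            induction m with
            | zero => intro x'; exact empty_subset _
            | succ m ihm =>
              intro x'
              rw [out_succ]
              split_ifs
              · exact filter_subset _ _
              · exact (ihm _).trans (image_subset_image (range_subset_range.2 (by omega)))
          obtain ⟨a, ha, ha2⟩ := mem_image.1 (h4 j _ h)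
          have ha' := mem_range.1 ha
          have := hinj a (by omega) j (by omega) ha2
          omega
        simp [h3]

theorem lower_part (hn : 0 < n) (ρ : List (View n) → Fin n)
    (hρ : ∀ (v : View n) l, v.2.Nonempty → ρ (v :: l) ∈ v.2) (s₀ : Fin n → Bool) :
    ∃ (e : Fin n ≃ Fin n) (g : ℕ → Bool) (L : ℕ) (x : ℕ → Fin n → ℝ),
      VertexAt (RM e g) (RB e g) s₀ (x 0) ∧
      Run (RM e g) (RB e g) (fun l => ((ob l : ℤ) : ℝ)) ρ L x ∧ 2 * L = n * (n + 1) := by
  classical
  obtain ⟨o, L, ho, hL, _, hne, hend⟩ := exists_order ρ hρ n univ s₀ [] (by simp)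
  have hinj : ∀ a < n, ∀ b < n, o a = o b → a = b := by
    have h1 : ((range n).image o).card = (range n).card := by
      rw [ho, card_range, card_univ, Fintype.card_fin]
    have h2 := card_image_iff.1 h1
    intro a ha b hb hab
    exact h2 (mem_coe.2 (mem_range.2 ha)) (mem_coe.2 (mem_range.2 hb)) hab
  set e : Fin n ≃ Fin n := Equiv.ofBijective (fun k => o k) ((Fintype.bijective_iff_injective_and_card
    _).2 ⟨fun a b hab => Fin.ext (hinj a a.2 b b.2 hab), rfl⟩) with he
  have heo : ∀ k : Fin n, e k = o k := fun k => rfl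
  set g : ℕ → Bool := fun k => s₀ (o k) != decide (Odd (n - 1 - k)) with hg
  have himp : ∀ s, impr (RM e g) (RB e g) (fun l => ((ob l : ℤ) : ℝ)) (VV e g s) =
      out o n s₀ s := by
    intro s
    ext i
    obtain ⟨j, rfl⟩ : ∃ j, i = e j := ⟨e.symm i, (e.apply_symm_apply i).symm⟩
    rw [impr_VV e g hn, heo, mem_out o g (lv e g s) s n s₀ hinj (fun k _ => by
      rw [hg]; simp) (fun k hk => lv_false e g (k := ⟨k, hk⟩) (s := s)) j j.2]
  exact ⟨e, g, L, fun k => VV e g ((ms ρ (out o n s₀))^[k] ([], s₀)).2,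
    VV_vertexAt e g hn s₀, run_of (isCube e g hn) _ (VV_vertexAt e g hn) himp ρ s₀ L hne hend, hL⟩

end Pool.Agent.H693.Comb
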