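import Pool.Agent.H693.Comb.Phase

set_option autoImplicit false

/-!
# The adversary: for every rule an order of the directions for which it needs `n (n + 1) / 2` steps
-/

namespace Pool.Agent.H693.Comb

open Finset Pool.Agent.H454R3 Pool.Agent.TH628.PR

variable {n : ℕ}

/-- all coordinates changed -/
def cmp (x : Fin n → Bool) : Fin n → Bool := fun i => !x i

/-- the outmap of the order `o 0, …, o (u - 1)` (from the bottom to the top): if the top direction
agrees with `x`, then the improving directions are those which agree with `x`; otherwise the top direction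
is settled and the others have the outmap of the opposite reference vector -/
def out (o : ℕ → Fin n) : ℕ → (Fin n → Bool) → (Fin n → Bool) → Finset (Fin n)
  | 0, _, _ => ∅
  | u + 1, x, y => if y (o u) = x (o u) then ((range (u + 1)).image o).filter fun i => y i = x i
      else out o u (cmp x) y

lemma out_succ (o : ℕ → Fin n) (u : ℕ) (x y : Fin n → Bool) : out o (u + 1) x y =
    if y (o u) = x (o u) then ((range (u + 1)).image o).filter fun i => y i = x i
      else out o u (cmp x) y := rfl

lemma out_congr {o o' : ℕ → Fin n} (u : ℕ) : ∀ {x x' : Fin n → Bool} (y : Fin n → Bool),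
    (∀ k < u, o k = o' k) → (∀ k < u, x (o k) = x' (o k)) → out o u x y = out o' u x' y := by
  induction u with
  | zero => intro x x' y _ _; rfl
  | succ u ih =>
    intro x x' y h1 h2
    have e1 := h1 u (by omega)
    have e2 := h2 u (by omega)
    have e3 : (range (u + 1)).image o = (range (u + 1)).image o' :=
      image_congr fun k hk => h1 k (mem_range.1 hk)
    unfold out
    rw [← e1, ← e2, ← e3]
    have e4 : ((range (u + 1)).image o).filter (fun i => y i = x i) =
        ((range (u + 1)).image o).filter fun i => y i = x' i := by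
      refine filter_congr fun i hi => ?_
      obtain ⟨k, hk, rfl⟩ := mem_image.1 hi
      rw [h2 k (mem_range.1 hk)]
    rw [e4, ih y (fun k hk => h1 k (by omega)) (x := cmp x) (x' := cmp x')
      (fun k hk => by unfold cmp; rw [h2 k (by omega)])]

section
variable (ρ : List (View n) → Fin n)
  (hρ : ∀ (v : View n) l, v.2.Nonempty → ρ (v :: l) ∈ v.2)
include hρ

/-- one phase: all directions in `W` are used, the last one is `j` -/
lemma one_phase (U : Finset (Fin n)) (x : Fin n → Bool) (w : ℕ) : ∀ (W : Finset (Fin n))
    (y : Fin n → Bool) (l : List (View n)), W.card = w + 1 → W ⊆ U →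
    (U.filter fun i => y i = x i) = W →
    ∃ j ∈ W, ∃ (l' : List (View n)) (y' : Fin n → Bool), (∀ i, i ∉ W → y' i = y i) ∧
      (∀ i ∈ W, y' i = !x i) ∧
      ∀ imp : (Fin n → Bool) → Finset (Fin n),
        (∀ z : Fin n → Bool, z j = x j → imp z = U.filter fun i => z i = x i) →
        (ms ρ imp)^[w + 1] (l, y) = (l', y') ∧
        ∀ k < w + 1, (imp ((ms ρ imp)^[k] (l, y)).2).Nonempty ∧
          ∀ i, i ∉ W → ((ms ρ imp)^[k] (l, y)).2 i = y i := by
  induction w with
  | zero =>
    intro W y l hW hWU hy
    obtain ⟨j, hj⟩ := card_eq_one.1 hW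
    subst hj
    have hyj : y j = x j := by
      have : j ∈ U.filter fun i => y i = x i := by rw [hy]; exact mem_singleton_self j
      exact (mem_filter.1 this).2
    refine ⟨j, mem_singleton_self j, (y, {j}) :: l, H454R3.flip y j, ?_, ?_, ?_⟩
    · intro i hi
      exact flip_off _ fun h => hi (mem_singleton.2 h)
    · intro i hi
      rw [mem_singleton.1 hi, flip_at, hyj]
    · intro imp himp
      have h1 : imp y = {j} := (himp y hyj).trans hy
      have h2 : ρ ((y, {j}) :: l) = j := mem_singleton.1 (hρ (y, {j}) l ⟨j, mem_singleton_self j⟩)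
      refine ⟨?_, ?_⟩
      · show ms ρ imp (l, y) = _
        unfold ms
        simp only [h1, h2]
      · intro k hk
        obtain rfl : k = 0 := by omega
        refine ⟨?_, fun _ _ => rfl⟩
        show (imp y).Nonempty
        rw [h1]
        exact ⟨j, mem_singleton_self j⟩
  | succ w ih =>
    intro W y l hW hWU hy
    have hne : W.Nonempty := card_pos.1 (by omega)
    have hi := hρ (y, W) l hne
    set i := ρ ((y, W) :: l) with hidef
    have hi : i ∈ W := hi
    have hyW : ∀ a ∈ W, y a = x a := fun a ha => by
      have : a ∈ U.filter fun i => y i = x i := by rw [hy]; exact ha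
      exact (mem_filter.1 this).2
    have hy' : (U.filter fun a => H454R3.flip y i a = x a) = W.erase i := by
      ext a
      rw [mem_filter, mem_erase]
      by_cases hai : a = i
      · rw [hai, flip_at, hyW i hi]
        simp
      · rw [flip_off _ hai]
        have : a ∈ W ↔ a ∈ U ∧ y a = x a := by rw [← hy, mem_filter]
        tauto
    obtain ⟨j, hj, l', y', h1, h2, h3⟩ := ih (W.erase i) (H454R3.flip y i) ((y, W) :: l)
      (by rw [card_erase_of_mem hi, hW]; rfl) ((erase_subset _ _).trans hWU) hy'
    have hjW : j ∈ W := mem_of_mem_erase hj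
    refine ⟨j, hjW, l', y', ?_, ?_, ?_⟩
    · intro a ha
      rw [h1 a fun h => ha (mem_of_mem_erase h), flip_off _ (fun h => ha (by rw [h]; exact hi) : a ≠ i)]
    · intro a ha
      by_cases hai : a = i
      · rw [hai, h1 i (notMem_erase _ _), flip_at, hyW i hi]
      · exact h2 a (mem_erase.2 ⟨hai, ha⟩)
    · intro imp himp
      obtain ⟨h4, h5⟩ := h3 imp himp
      have h6 : imp y = W := (himp y (hyW j hjW)).trans hy
      have h7 : ms ρ imp (l, y) = ((y, W) :: l, H454R3.flip y i) := by
        unfold ms
        simp only [h6]
        rw [hidef]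
      refine ⟨by rw [Function.iterate_succ_apply, h7]; exact h4, ?_⟩
      intro k hk
      cases k with
      | zero =>
        refine ⟨?_, fun _ _ => rfl⟩
        show (imp y).Nonempty
        rw [h6]
        exact hne
      | succ k =>
        rw [Function.iterate_succ_apply, h7]
        obtain ⟨h8, h9⟩ := h5 k (by omega)
        refine ⟨h8, fun a ha => ?_⟩
        rw [h9 a fun h => ha (mem_of_mem_erase h), flip_off _ (fun h => ha (by rw [h]; exact hi) : a ≠ i)]

lemma exists_order (u : ℕ) : ∀ (U : Finset (Fin n)) (x : Fin n → Bool) (l : List (View n)),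
    U.card = u → ∃ (o : ℕ → Fin n) (L : ℕ), (range u).image o = U ∧ 2 * L = u * (u + 1) ∧
      (∀ k ≤ L, ∀ j, j ∉ U → ((ms ρ (out o u x))^[k] (l, x)).2 j = x j) ∧
      (∀ k < L, (out o u x ((ms ρ (out o u x))^[k] (l, x)).2).Nonempty) ∧
      out o u x ((ms ρ (out o u x))^[L] (l, x)).2 = ∅ := by
  induction u with
  | zero =>
    intro U x l hU
    rw [card_eq_zero] at hU
    subst hU
    by_cases hn : 0 < n
    · refine ⟨fun _ => ⟨0, hn⟩, 0, by simp, by simp, ?_, by simp, rfl⟩
      intro k hk j _
      obtain rfl : k = 0 := by omega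
      rfl
    · exact ⟨fun _ => ρ [], 0, by simp, by simp, fun k hk j => absurd j.2 (by omega), by simp, rfl⟩
  | succ u ih =>
    intro U x l hU
    obtain ⟨j, hj, l', y', h1, h2, h3⟩ := one_phase ρ hρ U x u U x l hU subset_rfl (by simp)
    obtain ⟨o', L', ho', hL', hout', hne', hend'⟩ := ih (U.erase j) y' l'
      (by rw [card_erase_of_mem hj, hU]; rfl)
    set o : ℕ → Fin n := Function.update o' u j with ho
    have hou : o u = j := by rw [ho, Function.update_self]
    have hok : ∀ k < u, o k = o' k := fun k hk => by
      rw [ho, Function.update_of_ne (by omega)]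
    have himg : (range (u + 1)).image o = U := by
      rw [range_add_one, image_insert, hou, image_congr (g := o')
        (fun k hk => hok k (mem_range.1 hk)), ho', insert_erase hj]
    set imp := out o (u + 1) x with himp
    have hx : ∀ z : Fin n → Bool, z j = x j → imp z = U.filter fun i => z i = x i := by
      intro z hz
      rw [himp, out_succ, hou, if_pos hz, himg]
    obtain ⟨h4, h5⟩ := h3 imp hx
    have hx' : ∀ z : Fin n → Bool, z j = y' j → imp z = out o' u y' z := by
      intro z hz
      rw [himp, out_succ, hou, if_neg (by rw [hz, h2 j hj]; cases x j <;> simp)]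
      refine out_congr u z hok fun k hk => ?_
      have : o k ∈ U.erase j := by
        rw [← ho', hok k hk]
        exact mem_image_of_mem _ (mem_range.2 hk)
      rw [h2 _ (mem_of_mem_erase this)]
      rfl
    have hcongr : ∀ K ≤ L', (ms ρ imp)^[K] (l', y') = (ms ρ (out o' u y'))^[K] (l', y') := by
      intro K hK
      refine iter_congr ρ K fun k hk => (hx' _ ?_).symm
      exact hout' k (by omega) j (notMem_erase _ _)
    refine ⟨o, L' + (u + 1), himg, by nlinarith, ?_, ?_, ?_⟩
    · intro k hk i hi
      by_cases hku : k < u + 1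
      · exact (h5 k hku).2 i hi
      · obtain ⟨k', rfl⟩ : ∃ k', k = k' + (u + 1) := ⟨k - (u + 1), by omega⟩
        rw [Function.iterate_add_apply, h4, hcongr k' (by omega),
          hout' k' (by omega) i fun h => hi (mem_of_mem_erase h), h1 i hi]
    · intro k hk
      by_cases hku : k < u + 1
      · exact (h5 k hku).1
      · obtain ⟨k', rfl⟩ : ∃ k', k = k' + (u + 1) := ⟨k - (u + 1), by omega⟩
        rw [Function.iterate_add_apply, h4, hcongr k' (by omega)]
        change (imp _).Nonempty
        rw [hx' _ (hout' k' (by omega) j (notMem_erase _ _))]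
        exact hne' k' (by omega)
    · rw [Function.iterate_add_apply, h4, hcongr L' le_rfl]
      change imp _ = ∅
      rw [hx' _ (hout' L' le_rfl j (notMem_erase _ _))]
      exact hend'

end

end Pool.Agent.H693.Comb
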